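import Pool.Agent.MP7489fb.Asymp

set_option autoImplicit false

/-! Partial answer to Q1 of MP_7489fb_co: for every `n ≥ 3` the least number `g(n, d)` of proper
boxes in a double cover of `[n]^d` is at most `(1 + o(1)) 2^d` as `d → ∞`. -/

namespace Pool.Agent.Results.MP_7489fb_co.AsymptoticUpper

open Pool.Agent.MP7489fb

theorem result (n : ℕ) (hn : 3 ≤ n) (ε : ℝ) (hε : 0 < ε) :
    ∃ d₀ : ℕ, ∀ d : ℕ, d₀ ≤ d → ∃ F : Multiset (Fin d → Finset (Fin n)),
      IsDoubleCover n d F ∧ (F.card : ℝ) ≤ (1 + ε) * 2 ^ d :=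
  exists_cover n hn ε hε

end Pool.Agent.Results.MP_7489fb_co.AsymptoticUpper
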