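import Pool.Agent.MP7489fb.Low9

set_option autoImplicit false

/-! Partial answer to Q2 of MP_7489fb_co: a weighted lower bound for all double covers of `[n]^d`
by proper boxes, which answers Q2 positively for all `d ≤ 4` and all `n`, even for the number of
distinct boxes. -/

namespace Pool.Agent.Results.MP_7489fb_co.LowerFour

open Pool.Agent.MP7489fb Finset

theorem result :
    (∀ n d : ℕ, 2 ≤ n → 2 ≤ d → ∀ F : Multiset (Fin d → Finset (Fin n)), IsDoubleCover n d F →
      8 * 2 ^ d ≤ (d + 4) * (univ.filter (fun B => F.count B = 1)).card +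
        8 * (univ.filter (fun B => F.count B = 2)).card) ∧
    (∀ n d : ℕ, 2 ≤ n → 2 ≤ d → 8 * 2 ^ d ≤ (d + 4) * g n d) ∧
    (∀ n d : ℕ, 2 ≤ n → d ≤ 4 → 2 ^ d ≤ g n d ∧
      ∀ F : Multiset (Fin d → Finset (Fin n)), IsDoubleCover n d F → 2 ^ d ≤ F.toFinset.card) := by
  refine ⟨?_, ?_, ?_⟩
  · intro n d hn hd F hF
    exact Low.lower2 F hF (by omega) hd
  · intro n d hn hd
    exact Low.le_g2 hn hd
  · intro n d hn hd
    exact ⟨Low.q2_four hn hd, fun F hF => Low.distinct2 F hF (by omega) hd⟩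

end Pool.Agent.Results.MP_7489fb_co.LowerFour
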