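import Pool.Agent.MP7489fb.Mix3

set_option autoImplicit false

/-! Partial answer to Q2 of MP_7489fb_co: double covers of `[n]^d` by proper boxes in which the
sides of the boxes of multiplicity one are restricted, in every dimension. -/

namespace Pool.Agent.Results.MP_7489fb_co.RestrictedSides

open Pool.Agent.MP7489fb Finset

theorem result :
    (∀ n d p : ℕ, 2 ≤ n → 3 ≤ p → ∀ F : Multiset (Fin d → Finset (Fin n)), IsDoubleCover n d F →
      ∀ N : Finset (Fin d),
      (∀ i ∈ N, ∃ V : Finset (Fin n), Odd V.card ∧ ∀ B, F.count B = 1 → Even (B i ∩ V).card) →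
      (∀ B, F.count B = 1 → (univ.filter (fun i : Fin d => i ∉ N ∧ ∃ V : Finset (Fin n),
        Odd V.card ∧ 3 ≤ V.card ∧ Even (B i ∩ V).card)).card ≤ p) →
      6 * 2 ^ d ≤ (p + 3) * (univ.filter (fun B => F.count B = 1)).card +
        6 * (univ.filter (fun B => F.count B = 2)).card) ∧
    (∀ d : ℕ, ∀ F : Multiset (Fin d → Finset (Fin 3)), IsDoubleCover 3 d F →
      ∀ N : Finset (Fin d),
      (∀ i ∈ N, (∀ B, F.count B = 1 → (B i).card = 2) ∨ ∃ a, ∀ B, F.count B = 1 → a ∉ B i) →
      (∀ B, F.count B = 1 → (univ.filter (fun i : Fin d => i ∉ N ∧ (B i).card = 2)).card ≤ 3) →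
      2 ^ d ≤ F.toFinset.card) := by
  refine ⟨?_, ?_⟩
  · intro n d p hn hp F hF N h1 h2
    have h := Mix.main_sets (by omega) F hF N p hp h1 ?_
    · convert h
    · intro B hB
      convert h2 B hB
  · intro d F hF N h1 h2
    refine Mix.main_three F hF N h1 ?_
    intro B hB
    convert h2 B hB

end Pool.Agent.Results.MP_7489fb_co.RestrictedSides
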