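import Pool.Agent.MP7489fb.ThreeB

set_option autoImplicit false

/-! Partial answer to Q1 and Q2 of MP_7489fb_co: the values `g(3, 2) = 6`, `g(3, 3) = 11` and
`g(3, 4) = 21`, inequalities for all double covers of `[3]^d` by proper boxes, lower bounds for
`g(3, d)` for all `d`, and `g(3, d) ≥ 2^d` for `d ≤ 7`. -/

namespace Pool.Agent.Results.MP_7489fb_co.ThreeLetters

open Pool.Agent.MP7489fb Finset

/-- The number of sides of the box which have exactly two elements. -/
def twos {d : ℕ} (B : Fin d → Finset (Fin 3)) : ℕ :=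
  (univ.filter (fun i => (B i).card = 2)).card

theorem result :
    (g 3 2 = 6 ∧ g 3 3 = 11 ∧ g 3 4 = 21 ∧ 38 ≤ g 3 5 ∧ 70 ≤ g 3 6 ∧ 128 ≤ g 3 7) ∧
    (∀ d : ℕ, d ≤ 7 → 2 ^ d ≤ g 3 d) ∧
    (∀ d : ℕ, 12 * (d + 10) * 2 ^ d ≤ (d ^ 2 + 20 * d + 76) * g 3 d) ∧
    (∀ (d c : ℕ) (F : Multiset (Fin d → Finset (Fin 3))), IsDoubleCover 3 d F →
      2 * 3 ^ d * d.choose (c + 1) ≤ 3 ^ c * (F.map (fun B => 2 ^ twos B *
        (3 * (d - twos B).choose (c + 1) + twos B * (d - twos B).choose c))).sum) ∧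
    (∀ (d : ℕ) (F : Multiset (Fin d → Finset (Fin 3))), IsDoubleCover 3 d F →
      6 * 2 ^ d ≤ (F.map (fun B => twos B + 3)).sum ∧
      3 * d * 2 ^ d + (F.map (fun B => twos B * (twos B + 1))).sum ≤
        d * (F.map (fun B => twos B + 3)).sum) := by
  refine ⟨⟨Three.g2, Three.g3, Three.g4t, Three.g5t, Three.g6b, Three.g7b⟩, Three.q2b, Three.gall, ?_, ?_⟩
  · intro d c F hF
    refine (Three.family F hF c).trans (le_of_eq ?_)
    rw [← Multiset.sum_map_mul_left]
    apply congrArg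
    apply Multiset.map_congr rfl
    intro B _
    unfold Three.co
    change 2 ^ twos B * 3 ^ c * (3 * (d - twos B).choose (c + 1) +
      twos B * (d - twos B).choose c) = _
    ring
  · intro d F hF
    exact ⟨Three.first d F hF, Three.second d F hF⟩

end Pool.Agent.Results.MP_7489fb_co.ThreeLetters
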